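import Pool.Agent.H104.MZ.Stm

set_option autoImplicit false

open Polynomial Finset

namespace Pool.Agent.H104.MZ

lemma abs_cos_le_one_sub (x : ℝ) :
    |Real.cos (Real.pi * x)| ≤ 1 - 2 * (x - (round x : ℝ)) ^ 2 := by
  set y := x - (round x : ℝ) with hy
  have hy2 : |y| ≤ 1 / 2 := abs_sub_round x
  have hpi := Real.pi_pos
  have h1 : |Real.cos (Real.pi * x)| = |Real.cos (Real.pi * y)| := by
    have : Real.pi * x = Real.pi * y + (round x : ℤ) * Real.pi := by
      rw [hy]; ring
    rw [this, Real.cos_add_int_mul_pi, abs_mul]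
    have : |(-1 : ℝ) ^ (round x)| = 1 := by
      rw [abs_zpow]; simp
    rw [this, one_mul]
  rw [h1]
  have h2 := abs_le.1 hy2
  rw [abs_of_nonneg]
  · have h3 : |Real.pi * y| ≤ Real.pi := by
      rw [abs_mul, abs_of_pos hpi]
      nlinarith
    have h4 := Real.cos_le_one_sub_mul_cos_sq h3
    have h5 : 2 / Real.pi ^ 2 * (Real.pi * y) ^ 2 = 2 * y ^ 2 := by
      field_simp
    linarith
  · apply Real.cos_nonneg_of_mem_Icc
    constructor <;> nlinarith

theorem t_BADP : S_BADP := by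
  intro N R η G hη hR
  rw [Finset.abs_prod]
  have hb : bad η N G ⊆ range N := Finset.filter_subset _ _
  have h1 : ∏ j ∈ range N, |Real.cos (Real.pi * G.eval (j : ℝ))| ≤
      ∏ j ∈ bad η N G, |Real.cos (Real.pi * G.eval (j : ℝ))| := by
    apply Finset.prod_le_prod_of_subset_of_le_one hb
    · intro i _
      exact abs_nonneg _
    · intro i _ _
      exact Real.abs_cos_le_one _
  have h2 : ∏ j ∈ bad η N G, |Real.cos (Real.pi * G.eval (j : ℝ))| ≤
      ∏ _j ∈ bad η N G, Real.exp (-(2 * η ^ 2)) := by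
    apply Finset.prod_le_prod
    · intro i _
      exact abs_nonneg _
    · intro i hi
      have h3 : η < |G.eval (i : ℝ) - (round (G.eval (i : ℝ)) : ℝ)| := (Finset.mem_filter.1 hi).2
      have h4 := abs_cos_le_one_sub (G.eval (i : ℝ))
      have h5 : η ^ 2 ≤ (G.eval (i : ℝ) - (round (G.eval (i : ℝ)) : ℝ)) ^ 2 := by
        rw [← sq_abs (G.eval (i : ℝ) - (round (G.eval (i : ℝ)) : ℝ))]
        exact pow_le_pow_left₀ hη.le h3.le 2
      have h6 := Real.add_one_le_exp (-(2 * η ^ 2))
      linarith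
  refine (h1.trans h2).trans ?_
  rw [Finset.prod_const, ← Real.exp_nat_mul]
  apply Real.exp_le_exp.2
  have h7 : ((R : ℝ) + 1) ≤ ((bad η N G).card : ℝ) := by exact_mod_cast hR
  nlinarith [sq_nonneg η]

end Pool.Agent.H104.MZ
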