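import Pool.Agent.H104.MZ.Stm

set_option autoImplicit false

open Polynomial Finset Filter

namespace Pool.Agent.H104.MZ

/-- The polynomial with given coefficients. -/
noncomputable def pol (N : ℕ) (a : ℕ → ℤ) : ℤ[X] := ∑ j ∈ range N, C (a j) * X ^ j

lemma pol_coeff (N : ℕ) (a : ℕ → ℤ) (i : ℕ) : (pol N a).coeff i = if i < N then a i else 0 := by
  unfold pol
  rw [finset_sum_coeff]
  simp only [coeff_C_mul, coeff_X_pow, mul_ite, mul_one, mul_zero]
  rw [Finset.sum_ite_eq]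
  simp [mem_range]

lemma pol_natDegree (N : ℕ) (a : ℕ → ℤ) (hN : 1 ≤ N) (ha : a (N - 1) ≠ 0) :
    (pol N a).natDegree = N - 1 := by
  apply le_antisymm
  · rw [natDegree_le_iff_coeff_eq_zero]
    intro i hi
    rw [pol_coeff, if_neg (by omega)]
  · apply le_natDegree_of_ne_zero
    rw [pol_coeff, if_pos (by omega)]
    exact ha

theorem fin_aux (hMOM2 : S_MOM2) (N m : ℕ) (hN : 1 ≤ N) (h : Good N m) :
    ∃ p : ℝ[X], (p.natDegree = N - 1 ∧ ∀ j ≤ N - 1, p.coeff j = 1 ∨ p.coeff j = -1) ∧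
      m ≤ p.rootMultiplicity 1 := by
  obtain ⟨a, ha1, ha2⟩ := h
  have hne : a (N - 1) ≠ 0 := by
    rcases ha1 (N - 1) with h | h <;> rw [h] <;> norm_num
  have hdeg := pol_natDegree N a hN hne
  have hd : (X - 1 : ℤ[X]) ^ m ∣ pol N a := by
    apply hMOM2 (pol N a) m N (by omega)
    intro k hk
    rw [← ha2 k hk]
    apply Finset.sum_congr rfl
    intro i hi
    rw [pol_coeff, if_pos (mem_range.1 hi)]
  have hinj : Function.Injective (Int.castRingHom ℝ) := by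
    intro x y hxy
    simpa using hxy
  refine ⟨(pol N a).map (Int.castRingHom ℝ), ⟨?_, ?_⟩, ?_⟩
  · rw [natDegree_map_eq_of_injective hinj, hdeg]
  · intro j hj
    rw [coeff_map, pol_coeff, if_pos (by omega)]
    rcases ha1 j with h | h <;> rw [h] <;> simp
  · have hp0 : (pol N a).map (Int.castRingHom ℝ) ≠ 0 := by
      intro h0
      have := congrArg (fun q => q.coeff (N - 1)) h0
      simp only [coeff_map, coeff_zero, pol_coeff] at this
      rw [if_pos (by omega)] at this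
      apply hne
      simpa using this
    rw [le_rootMultiplicity_iff hp0]
    have := Polynomial.map_dvd (Int.castRingHom ℝ) hd
    simpa using this

theorem fin (hMOM2 : S_MOM2) (hMAIN : S_MAIN) (c : ℝ) : ∃ Q : ℕ, 1 ≤ Q ∧ ∀ᶠ s : ℕ in atTop,
    ∃ p : ℝ[X], (p.natDegree = Q * 2 ^ s - 1 ∧ ∀ j ≤ Q * 2 ^ s - 1, p.coeff j = 1 ∨ p.coeff j = -1) ∧
      c * Real.log ((Q * 2 ^ s : ℕ) : ℝ) < (p.rootMultiplicity 1 : ℝ) := by
  obtain ⟨Q, hQ, s0, hs0⟩ := hMAIN (⌈2 * |c|⌉₊ + 1) (by omega)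
  refine ⟨Q, hQ, ?_⟩
  filter_upwards [eventually_ge_atTop (s0 + Q + 1)] with s hs
  have hN : 1 ≤ Q * 2 ^ s := Nat.one_le_iff_ne_zero.2 (by positivity)
  obtain ⟨p, hp, hm⟩ := fin_aux hMOM2 (Q * 2 ^ s) _ hN (hs0 s (by omega))
  refine ⟨p, hp, ?_⟩
  have hQr : (1 : ℝ) ≤ Q := by exact_mod_cast hQ
  have h3 : Real.log ((Q * 2 ^ s : ℕ) : ℝ) ≤ 2 * s := by
    push_cast
    rw [Real.log_mul (by positivity) (by positivity), Real.log_pow]
    have h4 := Real.log_le_sub_one_of_pos (show (0 : ℝ) < Q by linarith)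
    have h1 : Real.log 2 ≤ 1 := by
      have := Real.log_le_sub_one_of_pos (show (0 : ℝ) < 2 by norm_num)
      linarith
    have hs : (0 : ℝ) ≤ s := by positivity
    have hsQ : (Q : ℝ) ≤ s := by exact_mod_cast (by omega : Q ≤ s)
    nlinarith
  have h30 : 0 ≤ Real.log ((Q * 2 ^ s : ℕ) : ℝ) := Real.log_nonneg (by exact_mod_cast hN)
  have hm' : (((⌈2 * |c|⌉₊ + 1) * s : ℕ) : ℝ) ≤ (p.rootMultiplicity 1 : ℝ) := by exact_mod_cast hm
  have hs1 : (1 : ℝ) ≤ s := by exact_mod_cast (by omega : 1 ≤ s)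
  have hc := Nat.le_ceil (2 * |c|)
  push_cast at hm'
  have habs := abs_nonneg c
  calc c * Real.log ((Q * 2 ^ s : ℕ) : ℝ) ≤ |c| * Real.log ((Q * 2 ^ s : ℕ) : ℝ) :=
        mul_le_mul_of_nonneg_right (le_abs_self c) h30
    _ ≤ |c| * (2 * s) := mul_le_mul_of_nonneg_left h3 habs
    _ < ((⌈2 * |c|⌉₊ : ℝ) + 1) * s := by nlinarith
    _ ≤ _ := hm'

end Pool.Agent.H104.MZ
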