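import Pool.Agent.H104.MZ.Stm

set_option autoImplicit false

open Polynomial Finset

namespace Pool.Agent.H104.MZ

theorem t_FOU (h1 : S_BIN) (h2 : S_FOU1) (h3 : S_SIG) (h4 : S_BADP) (h5 : S_NEAR) (h6 : S_CNT)
    (h7 : S_VOL) : S_FOU := by
  intro N m R η hN hm hη hlog hstr
  by_contra hG
  obtain ⟨Λ, hΛ⟩ : ∃ Λ : ℕ, Λ = N ^ m + 1 := ⟨_, rfl⟩
  have hΛ1 : 1 ≤ Λ := by omega
  have hsum := h2 N m Λ (by omega) hG
  set f : (Fin m → ℕ) → ℝ := fun t => ∏ j ∈ range N,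
    Real.cos (Real.pi * (2 * (∑ k : Fin m, (t k : ℝ) * ((j.choose k : ℕ) : ℝ)) / Λ)) with hf
  set V : ℝ := ∏ k : Fin m, (1 / (8 * m * (N : ℝ) ^ ((k : ℕ) + 1)) : ℝ) with hV
  have hN' : (0 : ℝ) < N := by exact_mod_cast hN
  have hm' : (0 : ℝ) < m := by exact_mod_cast hm
  have hVpos : 0 < V := Finset.prod_pos (fun k _ => by positivity)
  have hlow : ∀ t : Fin m → ℕ, -(V / 2) ≤ f t := by
    intro t
    obtain ⟨G, hGd, hGe⟩ := h1 m (fun k => 2 * (t k : ℝ) / Λ)
    have hfG : f t = ∏ j ∈ range N, Real.cos (Real.pi * G.eval (j : ℝ)) := by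
      apply Finset.prod_congr rfl
      intro j _
      rw [hGe j]
      congr 2
      rw [Finset.mul_sum, Finset.sum_div]
      apply Finset.sum_congr rfl
      intro k _
      ring
    by_cases hb : (bad η N G).card ≤ R
    · obtain ⟨n, hn1, hn2⟩ := hstr G hGd hb
      have := h3 N G n hn1 hn2
      rw [hfG]
      linarith
    · push Not at hb
      have h8 := h4 N R η G hη hb
      have h9 := h7 N m (2 * η ^ 2 * (R + 1)) hN hm hlog
      rw [hfG]
      have := (abs_le.1 h8).1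
      rw [← hV] at h9
      linarith
  have hcnt := h6 N m Λ hN hm hΛ1
  rw [← hV] at hcnt
  have hsplit := Finset.sum_filter_add_sum_filter_not
    (Fintype.piFinset (fun _ : Fin m => range Λ))
    (fun t => ∀ k : Fin m, (t k : ℝ) ≤ Λ / (8 * m * (N : ℝ) ^ ((k : ℕ) + 1))) f
  have hcs := Finset.card_filter_add_card_filter_not
    (s := Fintype.piFinset (fun _ : Fin m => range Λ))
    (fun t : Fin m → ℕ => ∀ k : Fin m, (t k : ℝ) ≤ Λ / (8 * m * (N : ℝ) ^ ((k : ℕ) + 1)))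
  rw [Fintype.card_piFinset] at hcs
  simp only [Finset.card_range, Finset.prod_const, Finset.card_univ, Fintype.card_fin] at hcs
  set near := (Fintype.piFinset (fun _ : Fin m => range Λ)).filter
    (fun t => ∀ k : Fin m, (t k : ℝ) ≤ Λ / (8 * m * (N : ℝ) ^ ((k : ℕ) + 1))) with hnear
  set far := (Fintype.piFinset (fun _ : Fin m => range Λ)).filter
    (fun t => ¬ ∀ k : Fin m, (t k : ℝ) ≤ Λ / (8 * m * (N : ℝ) ^ ((k : ℕ) + 1))) with hfar
  have hn : (near.card : ℝ) * (1 / 2) ≤ ∑ t ∈ near, f t := by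
    rw [← nsmul_eq_mul]
    apply Finset.card_nsmul_le_sum
    intro t ht
    exact h5 N m Λ t hN hm hΛ1 (Finset.mem_filter.1 ht).2
  have hfr : (far.card : ℝ) * (-(V / 2)) ≤ ∑ t ∈ far, f t := by
    rw [← nsmul_eq_mul]
    apply Finset.card_nsmul_le_sum
    intro t ht
    exact hlow t
  have hcs' : (near.card : ℝ) + (far.card : ℝ) = (Λ : ℝ) ^ m := by exact_mod_cast hcs
  have hΛpos : (0 : ℝ) < (Λ : ℝ) ^ m := by positivity
  have hnp : 0 < (near.card : ℝ) := lt_of_lt_of_le (by positivity) hcnt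
  rw [hsum] at hsplit
  nlinarith

end Pool.Agent.H104.MZ
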