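import Pool.Agent.H104.MZ.Stm

set_option autoImplicit false

open Polynomial Finset

namespace Pool.Agent.H104.MZ

lemma degree_lt_of (G : ℝ[X]) (m d : ℕ) (hm : 1 ≤ m) (hmd : m ≤ d) (hG : G.degree < m) :
    G.natDegree < d := by
  by_cases h : G = 0
  · subst h; simp; omega
  · have := (natDegree_lt_iff_degree_lt h).2 hG
    omega

lemma comp_degree (G : ℝ[X]) (r Q : ℕ) (d : ℕ) (hG : G.natDegree < d) :
    (G.comp (C (r : ℝ) + C (Q : ℝ) * X)).degree < d := by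
  have h1 : (G.comp (C (r : ℝ) + C (Q : ℝ) * X)).natDegree ≤
      G.natDegree * (C (r : ℝ) + C (Q : ℝ) * X).natDegree := natDegree_comp_le
  have h2 : (C (r : ℝ) + C (Q : ℝ) * X).natDegree ≤ 1 := by
    refine (natDegree_add_le _ _).trans ?_
    refine max_le (by simp) ?_
    refine (natDegree_mul_le).trans ?_
    simp
  have h3 : (G.comp (C (r : ℝ) + C (Q : ℝ) * X)).natDegree < d := by
    calc _ ≤ G.natDegree * (C (r : ℝ) + C (Q : ℝ) * X).natDegree := h1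
      _ ≤ G.natDegree * 1 := Nat.mul_le_mul_left _ h2
      _ < d := by omega
  exact degree_le_natDegree.trans_lt (by exact_mod_cast h3)

lemma comp_eval (G : ℝ[X]) (r Q i : ℕ) :
    (G.comp (C (r : ℝ) + C (Q : ℝ) * X)).eval (i : ℝ) = G.eval ((r + Q * i : ℕ) : ℝ) := by
  simp [eval_comp]

lemma sum_classes (Q : ℕ) (hQ : 1 ≤ Q) (z : ℕ → ℕ → ℤ) (t : ℕ) :
    ∑ j ∈ range (Q * t), z (j % Q) (j / Q) = ∑ r ∈ range Q, ∑ i ∈ range t, z r i := by
  induction t with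
  | zero => simp
  | succ t ih =>
    rw [Nat.mul_succ, Finset.sum_range_add, ih]
    have : ∀ x ∈ range Q, z ((Q * t + x) % Q) ((Q * t + x) / Q) = z x t := by
      intro x hx
      rw [mem_range] at hx
      rw [Nat.mul_add_mod, Nat.mod_eq_of_lt hx, Nat.mul_add_div (by omega), Nat.div_eq_of_lt hx,
        Nat.add_zero]
    rw [Finset.sum_congr rfl this, ← Finset.sum_add_distrib]
    refine Finset.sum_congr rfl fun r _ => ?_
    rw [Finset.sum_range_succ]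

lemma even_sum' (Q : ℕ) (f : ℕ → ℤ) (h : ∀ r < Q, Even (f r)) : Even (∑ r ∈ range Q, f r) := by
  induction Q with
  | zero => simp
  | succ Q ih =>
    rw [Finset.sum_range_succ]
    exact (ih fun r hr => h r (by omega)).add (h Q (by omega))

theorem struct (hPOLY : S_POLY) (hEXT : S_EXT) (hPAR : S_PAR) (hSTR : S_STR)
    (L1 : ℤ[X]) (Q e E A M k m d ℓ R Y s : ℕ) (T B : ℕ) (hQ : 1 ≤ Q) (_he : e = E * M)
    (hA : ∀ (G : ℝ[X]) (n : ℕ → ℤ) (a b : ℕ) (η : ℝ),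
      G.degree < ((k * M : ℕ) : WithBot ℕ) → 0 ≤ η → ((B ^ M : ℕ) : ℝ) * η < 1 →
      (∀ j, a ≤ j → j < b → |G.eval (j : ℝ) - (n j : ℝ)| ≤ η) →
      ∀ j, a ≤ j → j + A * M < b →
      ∑ t ∈ range (e + 1), (-1 : ℤ) ^ t * ((e.choose t : ℕ) : ℤ) * n (j + Q * t) = 0)
    (hT1 : Tern L1) (hc1 : L1.coeff 0 ≠ 0) (hdeg1 : L1.natDegree ≤ ℓ)
    (hdvd1 : (X - 1 : ℤ[X]) ^ d ∣ L1) (hm : 1 ≤ m) (hmk : m ≤ k * M) (hmd : m ≤ d) (hed : e ≤ d)
    (hT : 4 * (ℓ + 1) * B ^ M ≤ T) (hB : 1 ≤ B)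
    (hY : Y = A * M + Q * ((R * ℓ + 1) * ℓ + 2))
    (n1 : (R + 1) * Y ≤ Q * 2 ^ s) (n2 : 2 * ((R * ℓ + 1) * ℓ) + 1 ≤ 2 ^ s) (n3 : e < 2 ^ s)
    (G : ℝ[X]) (hG : G.degree < m) (hbad : (bad (1 / (T : ℝ)) (Q * 2 ^ s) G).card ≤ R) :
    ∃ n : ℕ → ℤ, (∀ j < Q * 2 ^ s, |G.eval (j : ℝ) - (n j : ℝ)| < 1 / 2) ∧
      Even (∑ j ∈ range (Q * 2 ^ s), n j) := by
  have hBM : 1 ≤ B ^ M := Nat.one_le_pow _ _ hB
  have hTpos : 1 ≤ T := by nlinarith
  have hTr : (0 : ℝ) < T := by exact_mod_cast hTpos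
  set 𝔅 := bad (1 / (T : ℝ)) (Q * 2 ^ s) G with h𝔅
  obtain ⟨a, haN, ha⟩ := hSTR (Q * 2 ^ s) R Y 𝔅 hbad n1
  set n0 : ℕ → ℤ := fun j => round (G.eval (j : ℝ)) with hn0
  have near : ∀ j < Q * 2 ^ s, j ∉ 𝔅 → |G.eval (j : ℝ) - (n0 j : ℝ)| ≤ 1 / (T : ℝ) := by
    intro j hj hjB
    by_contra hcon
    apply hjB
    rw [h𝔅, bad, mem_filter, mem_range]
    exact ⟨hj, not_le.1 hcon⟩
  have hη0 : (0 : ℝ) ≤ 1 / (T : ℝ) := by positivity
  have hBT : ((B ^ M : ℕ) : ℝ) * (1 / (T : ℝ)) < 1 := by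
    rw [mul_one_div, div_lt_one hTr]
    have : B ^ M < T := by nlinarith
    exact_mod_cast this
  have hGk : G.degree < ((k * M : ℕ) : WithBot ℕ) := hG.trans_le (by exact_mod_cast hmk)
  have hrec := hA G n0 a (a + Y) (1 / (T : ℝ)) hGk hη0 hBT
    (fun j hj1 hj2 => near j (by omega) (ha j hj1 hj2))
  have hYA : A * M + Q * ((R * ℓ + 1) * ℓ + 2) = Y := hY.symm
  have hpoly := hPOLY Q e a (a + Y - A * M) n0 hQ (fun j hj1 hj2 => hrec j hj1 (by omega))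
  choose p hpdeg hpint hpeq using hpoly
  choose z hz using hpint
  have hℓT : ((ℓ : ℝ) + 1) * (1 / (T : ℝ)) ≤ 1 / 4 := by
    rw [mul_one_div, div_le_iff₀ hTr]
    have : 4 * (ℓ + 1) ≤ T := by nlinarith
    have : (4 : ℝ) * (ℓ + 1) ≤ T := by exact_mod_cast this
    linarith
  have hGd : G.natDegree < d := degree_lt_of G m d hm hmd hG
  have key : ∀ r < Q, ∀ i < 2 ^ s, |G.eval ((r + Q * i : ℕ) : ℝ) - (z r i : ℝ)| ≤ ℓ * (1 / (T : ℝ)) := by
    intro r hr i hi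
    have hdiv : Q * (a / Q) ≤ a := Nat.mul_div_le a Q
    have hdiv2 : a < Q * (a / Q) + Q := by
      have := Nat.lt_mul_div_succ a (show 0 < Q by omega)
      rw [Nat.mul_add, Nat.mul_one] at this
      exact this
    set W := (R * ℓ + 1) * ℓ with hW
    have hb2 : a / Q + W + 2 ≤ 2 ^ s := by
      have h1 : Q * (a / Q + W + 2) ≤ Q * 2 ^ s := by
        have h2 : Q * (a / Q + W + 2) = Q * (a / Q) + Q * (W + 2) := by ring
        rw [h2]
        omega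
      exact Nat.le_of_mul_le_mul_left h1 (by omega)
    have hcard : ((range (2 ^ s)).filter (fun i => r + Q * i ∈ 𝔅)).card ≤ R := by
      refine le_trans (Finset.card_le_card_of_injOn (fun i => r + Q * i) ?_ ?_) hbad
      · intro x hx
        simp only [coe_filter, mem_range, Set.mem_ofPred_eq] at hx
        exact hx.2
      · intro x _ y _ hxy
        simp only at hxy
        have : Q * x = Q * y := by omega
        exact Nat.eq_of_mul_eq_mul_left (by omega) this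
    have hmain := hEXT d ℓ R (2 ^ s) (1 / (T : ℝ)) L1 (G.comp (C (r : ℝ) + C (Q : ℝ) * X)) (p r)
      (fun i => n0 (r + Q * i)) ((range (2 ^ s)).filter (fun i => r + Q * i ∈ 𝔅))
      (a / Q + 1) (a / Q + 1 + W) hT1 hc1 hdeg1 hdvd1
      (comp_degree G r Q d hGd) ((hpdeg r).trans_le (by exact_mod_cast hed))
      (fun i => ⟨z r i, hz r i⟩) hη0 (by linarith) hcard ?_ (by omega) le_rfl ?_ n2 i hi
    · rw [comp_eval, hz r i] at hmain
      exact hmain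
    · intro i hi hiB
      rw [comp_eval]
      have hlt : r + Q * i < Q * 2 ^ s := by
        have : Q * (i + 1) ≤ Q * 2 ^ s := Nat.mul_le_mul_left _ hi
        rw [Nat.mul_add, Nat.mul_one] at this
        omega
      apply near _ hlt
      intro hmem
      apply hiB
      rw [mem_filter, mem_range]
      exact ⟨hi, hmem⟩
    · intro i hi1 hi2
      have e1 : Q * (a / Q + 1) ≤ Q * i := Nat.mul_le_mul_left _ hi1
      have e2 : Q * (i + 1) ≤ Q * (a / Q + 1 + W) := Nat.mul_le_mul_left _ hi2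
      have e3 : Q * (a / Q + 1) = Q * (a / Q) + Q := by ring
      have e4 : Q * (i + 1) = Q * i + Q := by ring
      have e5 : Q * (a / Q + 1 + W) = Q * (a / Q) + Q * (W + 2) - Q := by
        have : Q * (a / Q) + Q * (W + 2) = Q * (a / Q + 1 + W) + Q := by ring
        omega
      have e6 : Q ≤ Q * (W + 2) := Nat.le_mul_of_pos_right _ (by omega)
      constructor
      · rw [mem_filter]
        intro hh
        exact ha (r + Q * i) (by omega) (by omega) hh.2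
      · exact hpeq r i (by omega) (by omega)
  refine ⟨fun j => z (j % Q) (j / Q), ?_, ?_⟩
  · intro j hj
    have h1 := key (j % Q) (Nat.mod_lt _ (by omega)) (j / Q)
      (Nat.div_lt_of_lt_mul hj)
    rw [Nat.mod_add_div] at h1
    refine h1.trans_lt ?_
    have h2 : (0 : ℝ) ≤ ℓ := by positivity
    nlinarith
  · rw [sum_classes Q hQ z (2 ^ s)]
    apply even_sum'
    intro r _
    exact hPAR e s (p r) (z r) n3 (hpdeg r) (hz r)

lemma one_le_nrm (L : ℤ[X]) (h : L.coeff 0 ≠ 0) : 1 ≤ nrm L := by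
  unfold nrm
  have h0 : (0 : ℕ) ∈ L.support := mem_support_iff.2 h
  calc 1 ≤ (L.coeff 0).natAbs := Int.natAbs_pos.2 h
    _ ≤ _ := Finset.single_le_sum (f := fun i => (L.coeff i).natAbs) (fun _ _ => Nat.zero_le _) h0

lemma log_cond (m Q s : ℕ) (R T : ℕ) (hm : 1 ≤ m) (hQ : 1 ≤ Q) (hT : 1 ≤ T)
    (hR : R = T ^ 2 * (1 + 8 * m ^ 2 + m ^ 2 * (Q + s))) :
    Real.log 2 + m * Real.log (8 * m) + m * (m + 1) / 2 * Real.log ((Q * 2 ^ s : ℕ) : ℝ) ≤
      2 * (1 / (T : ℝ)) ^ 2 * (R + 1) := by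
  have hTr : (0 : ℝ) < T := by exact_mod_cast hT
  have hmr : (1 : ℝ) ≤ m := by exact_mod_cast hm
  have hQr : (1 : ℝ) ≤ Q := by exact_mod_cast hQ
  have h1 : Real.log 2 ≤ 1 := by
    have := Real.log_le_sub_one_of_pos (show (0 : ℝ) < 2 by norm_num)
    linarith
  have h2 : Real.log (8 * m) ≤ 8 * m := by
    have := Real.log_le_sub_one_of_pos (show (0 : ℝ) < 8 * m by linarith)
    linarith
  have h3 : Real.log ((Q * 2 ^ s : ℕ) : ℝ) ≤ Q + s := by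
    push_cast
    rw [Real.log_mul (by positivity) (by positivity), Real.log_pow]
    have := Real.log_le_sub_one_of_pos (show (0 : ℝ) < Q by linarith)
    have hs : (0 : ℝ) ≤ s := by positivity
    nlinarith
  have h30 : 0 ≤ Real.log ((Q * 2 ^ s : ℕ) : ℝ) := by
    apply Real.log_nonneg
    have : 1 ≤ Q * 2 ^ s := Nat.one_le_iff_ne_zero.2 (by positivity)
    exact_mod_cast this
  have h4 : (m : ℝ) * (m + 1) / 2 ≤ m ^ 2 := by nlinarith
  have h5 : (m : ℝ) * Real.log (8 * m) ≤ 8 * m ^ 2 := by nlinarith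
  have h6 : (m : ℝ) * (m + 1) / 2 * Real.log ((Q * 2 ^ s : ℕ) : ℝ) ≤ m ^ 2 * (Q + s) := by
    calc _ ≤ (m : ℝ) ^ 2 * Real.log ((Q * 2 ^ s : ℕ) : ℝ) :=
          mul_le_mul_of_nonneg_right h4 h30
      _ ≤ _ := mul_le_mul_of_nonneg_left h3 (by positivity)
  have h7 : (1 : ℝ) + 8 * m ^ 2 + m ^ 2 * (Q + s) ≤ 2 * (1 / (T : ℝ)) ^ 2 * (R + 1) := by
    rw [hR]
    push_cast
    have hD : (0 : ℝ) ≤ 1 + 8 * (m : ℝ) ^ 2 + m ^ 2 * (Q + s) := by positivity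
    have : 2 * (1 / (T : ℝ)) ^ 2 * ((T : ℝ) ^ 2 * (1 + 8 * (m : ℝ) ^ 2 + m ^ 2 * (Q + s)) + 1) =
        2 * (1 + 8 * (m : ℝ) ^ 2 + m ^ 2 * (Q + s)) + 2 * (1 / (T : ℝ)) ^ 2 := by
      field_simp
    rw [this]
    have : 0 ≤ 2 * (1 / (T : ℝ)) ^ 2 := by positivity
    linarith
  linarith

theorem main (hPIG : S_PIG) (hNTR : S_NTR) (hANN : S_ANN) (hSTR : S_STR) (hPOLY : S_POLY)
    (hEXT : S_EXT) (hPAR : S_PAR) (hFOU : S_FOU) (hKK : S_KK) (hNUM : S_NUM) : S_MAIN := by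
  intro Cc hC
  obtain ⟨k, hk1, hk⟩ := hKK Cc
  obtain ⟨L0, hT0, hc0, hdeg0, hdvd0⟩ := hPIG k hk1
  have hBle : nrm L0 ≤ 16 * k ^ 3 + 1 := (hNTR L0 hT0).trans (by omega)
  have hB1 : 1 ≤ nrm L0 := one_le_nrm L0 hc0
  have hBk : nrm L0 ^ (8 * Cc) ≤ 2 ^ k := (Nat.pow_le_pow_left hBle _).trans hk
  obtain ⟨Q, E, A, hQ, hA⟩ := hANN L0 k hc0 hdvd0
  obtain ⟨s1, hs1⟩ := hNUM Cc k (nrm L0) Q E A hC hk1 hB1 hBk hQ
  refine ⟨Q, hQ, s1 + 1, fun s hs => ?_⟩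
  obtain ⟨n1, n2, n3⟩ := hs1 s (by omega)
  have hs0 : 1 ≤ s := by omega
  have hm : 1 ≤ Cc * s := Nat.one_le_iff_ne_zero.2 (by positivity)
  have hM1 : 1 ≤ MM Cc k s := Nat.le_add_left 1 _
  have hmk : Cc * s ≤ k * MM Cc k s := by
    unfold MM
    have := Nat.lt_mul_div_succ (Cc * s) (show 0 < k by omega)
    exact this.le
  have hd1 : Cc * s ≤ dd Cc k E s := by
    refine hmk.trans ?_
    unfold dd
    exact Nat.mul_le_mul_right _ (by omega)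
  obtain ⟨L1, hT1, hc1, hdeg1, hdvd1⟩ := hPIG (dd Cc k E s) (hm.trans hd1)
  have hBM : 1 ≤ nrm L0 ^ MM Cc k s := Nat.one_le_pow _ _ hB1
  have hTT1 : 1 ≤ TT Cc k E (nrm L0) s := by
    unfold TT
    have : 1 ≤ 4 * (ll Cc k E s + 1) := by omega
    nlinarith
  have hTr : (0 : ℝ) < TT Cc k E (nrm L0) s := by exact_mod_cast hTT1
  refine hFOU (Q * 2 ^ s) (Cc * s) (RR Cc k E (nrm L0) Q s) (1 / (TT Cc k E (nrm L0) s : ℝ))
    (Nat.one_le_iff_ne_zero.2 (by positivity)) hm (by positivity) ?_ ?_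
  · have := log_cond (Cc * s) Q s (RR Cc k E (nrm L0) Q s) (TT Cc k E (nrm L0) s) hm hQ hTT1 rfl
    exact this
  · intro G hG hbad
    exact struct hPOLY hEXT hPAR hSTR L1 Q (E * MM Cc k s) E A (MM Cc k s) k (Cc * s)
      (dd Cc k E s) (ll Cc k E s) (RR Cc k E (nrm L0) Q s) (YY Cc k E (nrm L0) Q A s) s
      (TT Cc k E (nrm L0) s) (nrm L0) hQ rfl
      (fun G n a b η h1 h2 h3 h4 => hA (MM Cc k s) G n a b η h1 h2 h3 h4)
      hT1 hc1 hdeg1 hdvd1 hm hmk hd1 (by unfold dd; exact Nat.mul_le_mul_right _ (by omega))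
      le_rfl hB1 rfl n1 n2 n3 G hG hbad

end Pool.Agent.H104.MZ
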