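import Pool.Agent.H104.MZ.Stm

set_option autoImplicit false

open Polynomial Finset

namespace Pool.Agent.H104.MZ

lemma fwd_zero (w : ℕ → ℤ) (e T : ℕ)
    (h : ∀ u, u + e ≤ T → ∑ t ∈ range (e + 1), (-1 : ℤ) ^ t * ((e.choose t : ℕ) : ℤ) * w (u + t) = 0)
    (u : ℕ) (hu : u + e ≤ T) : (fwdDiff 1)^[e] w u = 0 := by
  rw [fwdDiff_iter_eq_sum_shift]
  have h1 := h u hu
  have : ∑ k ∈ range (e + 1), ((-1 : ℤ) ^ (e - k) * (e.choose k : ℤ)) • w (u + k • 1) =
      (-1 : ℤ) ^ e * ∑ t ∈ range (e + 1), (-1 : ℤ) ^ t * ((e.choose t : ℕ) : ℤ) * w (u + t) := by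
    rw [Finset.mul_sum]
    refine Finset.sum_congr rfl fun k hk => ?_
    rw [mem_range] at hk
    have h2 : (-1 : ℤ) ^ e * (-1 : ℤ) ^ k = (-1 : ℤ) ^ (e - k) := by
      obtain ⟨l, rfl⟩ : ∃ l, e = k + l := ⟨e - k, by omega⟩
      rw [Nat.add_sub_cancel_left, pow_add, mul_comm, ← mul_assoc, ← mul_pow]
      simp
    rw [← h2]
    simp only [smul_eq_mul, mul_one]
    ring
  rw [this, h1, mul_zero]

lemma fwd_zero_big (w : ℕ → ℤ) (e T : ℕ)
    (h : ∀ u, u + e ≤ T → ∑ t ∈ range (e + 1), (-1 : ℤ) ^ t * ((e.choose t : ℕ) : ℤ) * w (u + t) = 0)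
    (k : ℕ) (hk : e ≤ k) (hkT : k ≤ T) : (fwdDiff 1)^[k] w 0 = 0 := by
  obtain ⟨l, rfl⟩ : ∃ l, k = l + e := ⟨k - e, by omega⟩
  rw [Function.iterate_add_apply, fwdDiff_iter_eq_sum_shift]
  apply Finset.sum_eq_zero
  intro i hi
  rw [mem_range] at hi
  have : (fwdDiff 1)^[e] w (0 + i • 1) = 0 := by
    apply fwd_zero w e T h
    simp only [smul_eq_mul, mul_one]
    omega
  rw [this, smul_zero]

/-- binomial polynomial shifted -/
noncomputable def bp (i0 k : ℕ) : ℝ[X] :=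
  C (1 / (k.factorial : ℝ)) * (descPochhammer ℝ k).comp (X - C (i0 : ℝ))

lemma bp_natDegree (i0 k : ℕ) : (bp i0 k).natDegree ≤ k := by
  unfold bp
  refine (natDegree_C_mul_le _ _).trans ?_
  refine natDegree_comp_le.trans ?_
  rw [natDegree_X_sub_C, mul_one, descPochhammer_natDegree]

lemma bp_eval_int (i0 k : ℕ) (x : ℤ) :
    (bp i0 k).eval (x : ℝ) = (Ring.choose (x - i0) k : ℤ) := by
  unfold bp
  rw [eval_mul, eval_C, eval_comp, eval_sub, eval_X, eval_C]
  have h1 : ((x : ℝ) - (i0 : ℝ)) = ((x - i0 : ℤ) : ℝ) := by push_cast; ring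
  have h2 := Ring.descPochhammer_eq_factorial_smul_choose (R := ℤ) (x - i0) k
  rw [← Polynomial.eval_eq_smeval] at h2
  rw [h1, ← descPochhammer_eval_cast, h2]
  have hk : (k.factorial : ℝ) ≠ 0 := by exact_mod_cast Nat.factorial_ne_zero k
  simp only [nsmul_eq_mul]
  push_cast
  field_simp

theorem t_POLY : S_POLY := by
  intro Q e a b n hQ hrec r
  obtain ⟨i0, hi0, hmin⟩ : ∃ i0, a ≤ r + Q * i0 ∧ ∀ i, a ≤ r + Q * i → i0 ≤ i := by
    have hex : ∃ i, a ≤ r + Q * i := ⟨a, by nlinarith⟩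
    exact ⟨Nat.find hex, Nat.find_spec hex, fun i hi => Nat.find_min' hex hi⟩
  set w : ℕ → ℤ := fun t => n (r + Q * (i0 + t)) with hw
  refine ⟨∑ k ∈ range e, C (((fwdDiff 1)^[k] w 0 : ℤ) : ℝ) * bp i0 k, ?_, ?_, ?_⟩
  · rcases Nat.eq_zero_or_pos e with he | he
    · subst he; simp
    · refine (degree_sum_le _ _).trans_lt ?_
      rw [Finset.sup_lt_iff (by exact_mod_cast WithBot.bot_lt_coe e)]
      intro k hk
      rw [mem_range] at hk
      refine (degree_le_natDegree).trans_lt ?_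
      have : (C (((fwdDiff 1)^[k] w 0 : ℤ) : ℝ) * bp i0 k).natDegree ≤ k :=
        (natDegree_C_mul_le _ _).trans (bp_natDegree i0 k)
      exact_mod_cast this.trans_lt hk
  · intro i
    refine ⟨∑ k ∈ range e, (fwdDiff 1)^[k] w 0 * Ring.choose ((i : ℤ) - i0) k, ?_⟩
    rw [eval_finsetSum]
    push_cast
    refine Finset.sum_congr rfl fun k _ => ?_
    rw [eval_mul, eval_C]
    have := bp_eval_int i0 k (i : ℤ)
    push_cast at this
    rw [this]
  · intro i hi1 hi2
    obtain ⟨T, rfl⟩ : ∃ T, i = i0 + T := ⟨i - i0, by have := hmin i hi1; omega⟩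
    have hz : ∀ u, u + e ≤ T →
        ∑ t ∈ range (e + 1), (-1 : ℤ) ^ t * ((e.choose t : ℕ) : ℤ) * w (u + t) = 0 := by
      intro u hu
      have h1 : a ≤ r + Q * (i0 + u) := by nlinarith
      have h2 : r + Q * (i0 + u) + Q * e < b := by nlinarith
      have h3 := hrec (r + Q * (i0 + u)) h1 h2
      rw [← h3]
      refine Finset.sum_congr rfl fun t _ => ?_
      simp only [hw]
      congr 2
      ring
    have hnewton : w T = ∑ k ∈ range (T + 1), (T.choose k : ℤ) * (fwdDiff 1)^[k] w 0 := by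
      have := shift_eq_sum_fwdDiff_iter 1 w T 0
      simpa using this
    have hcut : ∑ k ∈ range (T + 1), (T.choose k : ℤ) * (fwdDiff 1)^[k] w 0 =
        ∑ k ∈ range e, (T.choose k : ℤ) * (fwdDiff 1)^[k] w 0 := by
      rcases le_total e (T + 1) with h | h
      · rw [← Finset.sum_subset (Finset.range_mono h)]
        intro k hk1 hk2
        rw [mem_range] at hk1 hk2
        rw [fwd_zero_big w e T hz k (by omega) (by omega), mul_zero]
      · rw [← Finset.sum_subset (Finset.range_mono h)]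
        intro k hk1 hk2
        rw [mem_range] at hk1 hk2
        rw [Nat.choose_eq_zero_of_lt (by omega)]
        simp
    change _ = ((w T : ℤ) : ℝ)
    rw [hnewton, hcut, eval_finsetSum]
    push_cast
    refine Finset.sum_congr rfl fun k _ => ?_
    rw [eval_mul, eval_C]
    have := bp_eval_int i0 k ((i0 + T : ℕ) : ℤ)
    push_cast at this
    rw [this]
    have h5 : ((i0 : ℤ) + (T : ℤ) - (i0 : ℤ)) = ((T : ℕ) : ℤ) := by ring
    rw [h5, Ring.choose_natCast]
    push_cast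
    ring

end Pool.Agent.H104.MZ
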