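import Mathlib

/-!
# Littlewood polynomials with many zeros at 1: statements of the lemmas (project MZ, helper104)

MP_efea25_an, Q1.  CLAIM (the answer to Q1 is no): for every `c` there are Littlewood polynomials `p`
(coefficients `1`, `-1`) of arbitrarily large degree `n` with a zero of multiplicity `> c log n` at `1`.

## Paper proof

Fix an integer `C ≥ 1`.  There is `Q ≥ 1` such that for all large `s` there are signs `a_0, …, a_{N-1}`,
`N = Q 2^s`, with `∑_j a_j binom(j,k) = 0` for all `k < m = C s`; then `(X-1)^m ∣ ∑ a_j X^j`.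

(1) Fourier.  For random signs the number of solutions is `2^N Λ^(-m) ∑_t ∏_{j<N} cos (π G_t(j))` with
`t ∈ {0,…,Λ-1}^m`, `Λ > N^m` and the real polynomial `G_t(x) = 2 ∑_{k<m} t_k binom(x,k) / Λ` of degree
`< m`.  The `t` near `0` contribute at least `(1/2) Λ^m ∏_k 1/(8 m N^(k+1))`.  Call `j < N` bad for `G`
if `G(j)` has distance `> η` from the integers.  If there are more than `R` bad `j` then
`|∏| ≤ exp(-2η²(R+1))`, which is negligible.  If there are at most `R` bad `j`, we show that there are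
integers `n_j` with `|G(j) - n_j| < 1/2` for ALL `j < N` and with `∑_{j<N} n_j` even; then the product
of the cosines is `≥ 0`.  So the sum is positive.  Here `η ≥ 2^(-s/8) / poly(s)`, `R ≤ 2^(s/4) poly(s)`.

(2) Structure.  By pigeonhole there is `L0` with coefficients `0, 1, -1`, degree `≤ 16 k³`,
`(X-1)^k ∣ L0`, `L0(0) ≠ 0`; `k` is a large constant, so that the norm `B0 = ‖L0‖_1 ≤ 16k³+1` satisfies
`B0^(8C) ≤ 2^k`.  Let `M = m/k+1`.  On an interval without bad `j` let `n_j` be the nearest integer of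
`G(j)`.  The operator `L0(T^σ)^M` (`T` = shift) is divisible by `(T-1)^m`, kills `G`, and has norm
`≤ B0^M < 1/η`, so it kills `n`.  The common zeros of `L0(X^σ)`, `σ = 1, …, S`, `S > deg L0`, are roots of
unity; so `(X^Q - 1)^E` is a combination of the `L0(X^σ)`, and `(T^Q-1)^(E' M)` kills `n`: on every class
modulo `Q`, `n` is an integer valued polynomial of degree `< E' M`.

(3) Extension.  The difference `E` of `G` and of this polynomial (on a class modulo `Q`) is a real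
polynomial of degree `< d = O(s)`, small on a long interval.  With a polynomial `L` with coefficients
`0, 1, -1`, degree `≤ ℓ = 16 d³`, `(X-1)^d ∣ L`, and dilations `L(T^σ)` that avoid the few bad points,
`|E(i)| ≤ ℓ η` at every further point `i`, so that the integer `n_i` is still the value of the
polynomial, and so on up to the ends of the interval `[0, 2^s)`.

(4) Parity.  The sum of an integer valued polynomial of degree `< e ≤ 2^s - 1` over `0 ≤ i < 2^s` is even,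
since `binom(2^s, k)` is even for `0 < k < 2^s`.
-/

set_option autoImplicit false

open Polynomial Finset

namespace Pool.Agent.H104.MZ

/-- The `l1` norm of an integer polynomial. -/
noncomputable def nrm (L : ℤ[X]) : ℕ := ∑ i ∈ L.support, (L.coeff i).natAbs

/-- All coefficients are `0`, `1` or `-1`. -/
def Tern (L : ℤ[X]) : Prop := ∀ i, L.coeff i = 0 ∨ L.coeff i = 1 ∨ L.coeff i = -1

/-- The bad places: `j < N` where `G(j)` has distance more than `η` from the integers. -/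
noncomputable def bad (η : ℝ) (N : ℕ) (G : ℝ[X]) : Finset ℕ :=
  (range N).filter (fun j => η < |G.eval (j : ℝ) - (round (G.eval (j : ℝ)) : ℝ)|)

/-- The polynomial `F` in the shift, applied to the sequence `n`, at the place `j`. -/
noncomputable def act (n : ℕ → ℤ) (j : ℕ) (F : ℂ[X]) : ℂ :=
  F.sum (fun i c => c * (n (j + i) : ℂ))

/-- JOB MOM1.  Polynomials divisible by `(X-1)^d` kill polynomial functions of degree `< d`.
Proof. Induction on `d` (for all `L`, `f`) with `L = (X-1) * L'`: the sum of `L.coeff i * f(i)` over all `i`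
is the sum of `L'.coeff i * (f(i+1) - f(i))`, and `f.comp (X+1) - f` has smaller degree.  (Sums over
`range (natDegree+1)` may be replaced by sums over any larger range or by `L.sum`.)
Or: it suffices to take `f` in the basis `descPochhammer k`, `k < d`, and
`∑ L.coeff i * binom(i,k) = (hasseDeriv k L).eval 1 = 0`. -/
def S_MOM1 : Prop := ∀ (L : ℤ[X]) (d : ℕ) (f : ℝ[X]), (X - 1 : ℤ[X]) ^ d ∣ L → f.degree < d →
  ∑ i ∈ range (L.natDegree + 1), (L.coeff i : ℝ) * f.eval (i : ℝ) = 0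

/-- JOB MOM2.  Vanishing moments give divisibility.
Proof. `(taylor 1 L).coeff k = (hasseDeriv k L).eval 1 = ∑ L.coeff i * binom(i,k) = 0` for `k < d`, so
`X^d ∣ taylor 1 L = L.comp (X + C 1)` (`Polynomial.X_pow_dvd_iff`), and
`Polynomial.X_sub_C_pow_dvd_iff`. -/
def S_MOM2 : Prop := ∀ (L : ℤ[X]) (d N : ℕ), L.natDegree < N →
  (∀ k < d, ∑ i ∈ range N, L.coeff i * ((i.choose k : ℕ) : ℤ) = 0) → (X - 1 : ℤ[X]) ^ d ∣ L

/-- JOB PIG (uses MOM2).  Pigeonhole.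
Proof. Let `ℓ = 16 d^3`.  For `b : Fin ℓ → {0,1}` (or subsets `b` of `range ℓ`) consider
`(∑_{i ∈ b} binom(i,k))_{k<d}`, natural numbers `≤ ℓ * ℓ^k ≤ ℓ^d`.  There are `2^ℓ` subsets and at most
`(ℓ^d+1)^d ≤ 2^d ℓ^(d^2) < 2^ℓ` values, as `ℓ ≤ 2^(4+3d)` (since `d ≤ 2^d`) and
`d + d^2 (4+3d) < 16 d^3` for... (`d + 4 d^2 + 3 d^3 ≤ 8 d^3 < 16 d^3`).  So two different subsets `b, b'`
have the same values; `L1 = ∑_{i∈b} X^i - ∑_{i∈b'} X^i` is nonzero, ternary, of degree `< ℓ`, and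
`(X-1)^d ∣ L1` by MOM2.  Divide by the largest power `X^v` of `X` dividing it (`X^v` is coprime to
`(X-1)^d`; or: the sum conditions for the shifted polynomial; `IsCoprime`), so that `coeff 0 ≠ 0`. -/
def S_PIG : Prop := ∀ d : ℕ, 1 ≤ d → ∃ L : ℤ[X], Tern L ∧ L.coeff 0 ≠ 0 ∧ L.natDegree ≤ 16 * d ^ 3 ∧
  (X - 1 : ℤ[X]) ^ d ∣ L

/-- JOB NRM.  Norm, degree and divisibility of the powers of `L(X^σ)`.
Proof. `nrm (P*Q) ≤ nrm P * nrm Q` (triangle inequality for `coeff_mul`, or induction on `P`),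
`nrm (expand σ L) = nrm L` (`coeff_expand`), `natDegree_expand`, `natDegree_pow_le`;
`(X^σ-1)^(kM) ∣ (expand σ L)^M` and `X - 1 ∣ X^σ - 1`. -/
def S_NRM : Prop := ∀ (L : ℤ[X]) (σ M : ℕ), 1 ≤ σ →
  nrm ((expand ℤ σ L) ^ M) ≤ nrm L ^ M ∧
  ((expand ℤ σ L) ^ M).natDegree ≤ σ * L.natDegree * M ∧
  ∀ k, (X - 1 : ℤ[X]) ^ k ∣ L → (X - 1 : ℤ[X]) ^ (k * M) ∣ (expand ℤ σ L) ^ M

/-- JOB NTR.  A ternary polynomial has norm at most `natDegree + 1`. -/
def S_NTR : Prop := ∀ L : ℤ[X], Tern L → nrm L ≤ L.natDegree + 1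

/-- JOB LOC (uses MOM1).  If `L` is divisible by `(X-1)^d` and `G` has degree `< d` and is `η`-close to
the integers `n_j` for `a ≤ j < b`, and `‖L‖_1 η < 1`, then `L` kills `n` inside `[a,b)`.
Proof. `∑_i L_i n(j+i) = ∑_i L_i (n(j+i) - G(j+i)) + ∑_i L_i G(j+i)`; the second sum is `0` by MOM1 for
`f = G.comp (X + C j)` (same degree), the first has absolute value `≤ ‖L‖_1 η < 1`; an integer of
absolute value `< 1` is `0`. -/
def S_LOC : Prop := ∀ (L : ℤ[X]) (d : ℕ) (G : ℝ[X]) (n : ℕ → ℤ) (a b : ℕ) (η : ℝ),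
  (X - 1 : ℤ[X]) ^ d ∣ L → G.degree < d → 0 ≤ η → (nrm L : ℝ) * η < 1 →
  (∀ j, a ≤ j → j < b → |G.eval (j : ℝ) - (n j : ℝ)| ≤ η) →
  ∀ j, a ≤ j → j + L.natDegree < b → ∑ i ∈ range (L.natDegree + 1), L.coeff i * n (j + i) = 0

/-- JOB GCD.  A power of `X^Q - 1` is a combination of the polynomials `L(X^σ)`, `1 ≤ σ ≤ S`.
Proof. Let `P` be the image of `L` in `ℂ[X]`, `P(0) ≠ 0`, `S = natDegree L + 1`, `Q = S!`.  The ideal
generated by `P(X^σ)`, `1 ≤ σ ≤ S`, is principal, generated by some `D`, `D ≠ 0`.  A root `z` of `D` is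
nonzero (as `P(0) ≠ 0`) and `z, z^2, …, z^S` are roots of `P`, which has fewer than `S` roots; so
`z^a = z^b` with `1 ≤ a < b ≤ S`, `z^(b-a) = 1`, `z^Q = 1`.  Hence every root of `D` is a root of
`X^Q-1`, and `D` splits, so `D ∣ (X^Q - 1)^(natDegree D)` (product over the multiset of roots of
`X - C z ∣ X^Q - 1`).  So `(X^Q-1)^e` is in the ideal: `Ideal.mem_span_range_iff_exists_fun`,
`Submodule.mem_span_finset` or similar. -/
def S_GCD : Prop := ∀ L : ℤ[X], L.coeff 0 ≠ 0 → ∃ Q S e : ℕ, 1 ≤ Q ∧ ∃ U : ℕ → ℂ[X],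
  ∑ σ ∈ range S, U σ * expand ℂ (σ + 1) (L.map (Int.castRingHom ℂ)) = (X ^ Q - 1) ^ e

/-- JOB POW.  Power trick.
Proof. `act n j` is linear in `F`, and `act n j (V * F) = ∑_i V.coeff i * act n (j+i) F`.  So if
`act n j' F = 0` for all `a ≤ j'` with `j' + F.natDegree < b`, then `act n j (V*F) = 0` whenever `a ≤ j`
and `j + (V.natDegree + F.natDegree) < b`; (if `V ≠ 0`, `F ≠ 0`) this sum of degrees is `(V*F).natDegree`.
Let `x_σ = U_σ F_σ`, `A1 = max natDegree (x_σ)` and `A = S * A1`.  Then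
`(X^Q-1)^(e*(S*M)) = (∑_σ x_σ)^(S*M) = ∑_κ multinomial * ∏ x_σ^(κ_σ)` (`Finset.sum_pow_of_commute`,
`Finset.sum_pow`, or `Finset.prod_univ_sum` for the product of `S*M` equal factors, a sum over functions
`Fin (S*M) → Fin S`); in every term some `κ_σ ≥ M` (else the sum of the `κ_σ` would be
`≤ S (M-1) < S M`; for `M = 0` any `σ`; `S ≥ 1` since the right side is not `0`), so the term is
`V * F_σ^M`, of degree at most `S*M*A1`, and is killed.  (If the term is `0` nothing is to show.) -/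
def S_POW : Prop := ∀ (S Q e : ℕ) (U F : ℕ → ℂ[X]), 1 ≤ Q →
  ∑ σ ∈ range S, U σ * F σ = (X ^ Q - 1) ^ e →
  ∃ A : ℕ, ∀ (M : ℕ) (n : ℕ → ℤ) (a b : ℕ),
    (∀ σ < S, ∀ j, a ≤ j → j + ((F σ) ^ M).natDegree < b → act n j ((F σ) ^ M) = 0) →
    ∀ j, a ≤ j → j + A * M < b → act n j ((X ^ Q - 1) ^ (e * (S * M))) = 0

/-- JOB EXPD.  The binomial expansion of the operator `(T^Q-1)^E`.
Proof. `(X^Q-1)^E = ∑_t binom(E,t) (-1)^(E-t) X^(Qt)`, `act` is linear, `act n j (X^u) = n (j+u)`;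
multiply by `(-1)^E`; cast to `ℂ` is injective. -/
def S_EXPD : Prop := ∀ (n : ℕ → ℤ) (j Q E : ℕ), act n j ((X ^ Q - 1) ^ E) = 0 →
  ∑ t ∈ range (E + 1), (-1 : ℤ) ^ t * ((E.choose t : ℕ) : ℤ) * n (j + Q * t) = 0

/-- JOB ANN (assembly of GCD, POW, EXPD, NRM, LOC).  Proof. `Q, S, e, U` from GCD, `F σ = expand ℂ (σ+1)
(L0 mapped to ℂ)`, `A` from POW, `E = e * S`.  `(F σ)^M` is the image of `K = (expand ℤ (σ+1) L0)^M`,
`natDegree` is the same, `act n j (K mapped) = ((∑_{i ≤ natDegree K} K.coeff i * n(j+i) : ℤ) : ℂ)`, which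
is `0` by LOC with `d = k*M` and NRM. -/
def S_ANN : Prop := ∀ (L0 : ℤ[X]) (k : ℕ), L0.coeff 0 ≠ 0 → (X - 1 : ℤ[X]) ^ k ∣ L0 →
  ∃ Q E A : ℕ, 1 ≤ Q ∧ ∀ (M : ℕ) (G : ℝ[X]) (n : ℕ → ℤ) (a b : ℕ) (η : ℝ),
    G.degree < ((k * M : ℕ) : WithBot ℕ) → 0 ≤ η → ((nrm L0 ^ M : ℕ) : ℝ) * η < 1 →
    (∀ j, a ≤ j → j < b → |G.eval (j : ℝ) - (n j : ℝ)| ≤ η) →
    ∀ j, a ≤ j → j + A * M < b →
      ∑ t ∈ range (E * M + 1), (-1 : ℤ) ^ t * (((E * M).choose t : ℕ) : ℤ) * n (j + Q * t) = 0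

/-- JOB STR.  A long interval without elements of a small set.
Proof. The `R+1` blocks `[uY, (u+1)Y)`, `u ≤ R`, are disjoint; one of them contains no element of `B`
(else choose an element of `B` in each block: an injection of `range (R+1)` into `B`). -/
def S_STR : Prop := ∀ (N R Y : ℕ) (B : Finset ℕ), B.card ≤ R → (R + 1) * Y ≤ N →
  ∃ a : ℕ, a + Y ≤ N ∧ ∀ j, a ≤ j → j < a + Y → j ∉ B

/-- JOB POLY.  A sequence killed by `(T^Q-1)^e` on `[a,b)` is on every class modulo `Q` given by an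
integer valued polynomial of degree `< e`.
Proof. Fix `r`, `v(i) = n(r+Qi)`; let `i0` be the least `i` with `a ≤ r+Qi`.  Let `p` be the polynomial
`∑_{k<e} (Δ^k v)(i0) binom(X - i0, k)` (`descPochhammer`/`k!`), or the Lagrange interpolation of `v` at
`i0, …, i0+e-1`: degree `< e`, and `p(i0+t) = v(i0+t)` for `t < e` (if `r + Q(i0+t)` is beyond `b` it does
not matter).  Its values at all integers are integers by `(T-1)^e p = 0`, i.e.
`∑_t (-1)^t binom(e,t) p(i+t) = 0` for all integers `i` (MOM1 type fact, or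
`Polynomial.fwdDiff_iter_degree_eq_zero`...), going up and down from the `e` integral values (first and
last coefficient are `1` and `±1`).  By the same recurrence `p(i) = v(i)` for `i ≥ i0` as long as
`r + Q i < b` (strong induction, hypothesis at `j = r + Q (i - e)`).  For `e = 0` the hypothesis says
`n j = 0`. -/
def S_POLY : Prop := ∀ (Q e a b : ℕ) (n : ℕ → ℤ), 1 ≤ Q →
  (∀ j, a ≤ j → j + Q * e < b →
    ∑ t ∈ range (e + 1), (-1 : ℤ) ^ t * ((e.choose t : ℕ) : ℤ) * n (j + Q * t) = 0) →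
  ∀ r : ℕ, ∃ p : ℝ[X], p.degree < e ∧ (∀ i : ℕ, ∃ z : ℤ, p.eval (i : ℝ) = z) ∧
    ∀ i : ℕ, a ≤ r + Q * i → r + Q * i < b → p.eval (i : ℝ) = n (r + Q * i)

/-- JOB EXT (uses MOM1).  Extension.
Proof. Let `δ = natDegree L ≤ ℓ`, `E = g - p` (degree `< d`).  For `σ ≥ 1` and any integer (or real) `x`:
`∑_{u≤δ} L_u E(x + σ u) = 0` and `∑_{u≤δ} L_u E(x - σ u) = 0` (MOM1 for `E.comp (C x ± C σ * X)`).
If `δ = 0` then `L = ±1`, `d = 0`, `E = 0`.  Let `δ ≥ 1`; `L_0, L_δ ∈ {1,-1}`.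
(A) If `i` is such that for all `σ ≤ Rℓ+1`, `1 ≤ σ`, and `1 ≤ u ≤ δ` the point `i - σu` is `≥ lo`, where for
all points `x ∈ [lo, i)`, `x ∉ B`, `p(x) = n(x)` (hence `|E(x)| ≤ η`), then `|E(i)| ≤ ℓη`: a bad point
`β ∈ B` is of the form `i - σu` for at most `δ ≤ ℓ` values of `σ` (one for every `u`), so some
`σ ∈ [1, Rℓ+1]` avoids `B`, and
`L_0 E(i) = - ∑_{u≥1} L_u E(i - σu)`.  Needs `i - lo ≥ (Rℓ+1)ℓ`.
(A') The same to the right.
(B) By strong induction on `i ≥ b`, `i < N`: `p(i) = n(i)` if `i ∉ B`: by (A) with `lo = a`,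
`|E(i)| ≤ ℓη`, so `|p(i) - n(i)| ≤ (ℓ+1)η < 1`, and both are integers.  In the same way down from `a` to `0`.
(C) So `p(i) = n(i)` for all `i < N`, `i ∉ B`.  For every `i < N` use (A) with `lo = 0` if
`i ≥ (Rℓ+1)ℓ` and (A') otherwise. -/
def S_EXT : Prop := ∀ (d ℓ R N : ℕ) (η : ℝ) (L : ℤ[X]) (g p : ℝ[X]) (n : ℕ → ℤ) (B : Finset ℕ)
  (a b : ℕ), Tern L → L.coeff 0 ≠ 0 → L.natDegree ≤ ℓ → (X - 1 : ℤ[X]) ^ d ∣ L →
  g.degree < d → p.degree < d → (∀ i : ℕ, ∃ z : ℤ, p.eval (i : ℝ) = z) →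
  0 ≤ η → ((ℓ : ℝ) + 1) * η < 1 → B.card ≤ R →
  (∀ i < N, i ∉ B → |g.eval (i : ℝ) - (n i : ℝ)| ≤ η) →
  b ≤ N → a + (R * ℓ + 1) * ℓ ≤ b → (∀ i, a ≤ i → i < b → i ∉ B ∧ p.eval (i : ℝ) = n i) →
  2 * ((R * ℓ + 1) * ℓ) + 1 ≤ N →
  ∀ i < N, |g.eval (i : ℝ) - p.eval (i : ℝ)| ≤ ℓ * η

/-- JOB PAR.  Parity.
Proof. `z i = ∑_{k<e} c_k binom(i,k)` with integers `c_k = (Δ^k z)(0)` (Newton; `Δ^e z = 0` as `z` is a
polynomial function of degree `< e`; Mathlib: `fwdDiff`, `shift_eq_sum_fwdDiff_iter`,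
`fwdDiff_iter_eq_zero_of_degree_lt`), so
`∑_{i<2^s} z i = ∑_{k<e} c_k binom(2^s, k+1)` (`Nat.sum_range_choose_...`, hockey stick), and
`binom(2^s, k+1)` is even for `1 ≤ k+1 < 2^s` (`Nat.Prime.dvd_choose_pow`). -/
def S_PAR : Prop := ∀ (e s : ℕ) (p : ℝ[X]) (z : ℕ → ℤ), e < 2 ^ s → p.degree < e →
  (∀ i : ℕ, p.eval (i : ℝ) = z i) → Even (∑ i ∈ range (2 ^ s), z i)

/-- JOB BIN.  Proof. `G = ∑_k C (c k / k!) * descPochhammer ℝ k`;
`descPochhammer_eval_eq_descFactorial`, `Nat.descFactorial_eq_factorial_mul_choose`. -/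
def S_BIN : Prop := ∀ (m : ℕ) (c : Fin m → ℝ), ∃ G : ℝ[X], G.degree < m ∧
  ∀ j : ℕ, G.eval (j : ℝ) = ∑ k : Fin m, c k * ((j.choose k : ℕ) : ℝ)

/-- The existence of signs with vanishing moments. -/
def Good (N m : ℕ) : Prop := ∃ a : ℕ → ℤ, (∀ j, a j = 1 ∨ a j = -1) ∧
  ∀ k < m, ∑ j ∈ range N, a j * ((j.choose k : ℕ) : ℤ) = 0

/-- JOB FOU1.  Fourier identity.
Proof. For signs `a : Fin N → {1,-1}` let `X_k(a) = ∑_j a_j binom(j,k)`; for `k < m`,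
`|X_k| ≤ ∑_{j<N} j^k ≤ N^m < Λ`.  Summing `exp(2πi t·X(a)/Λ)` over `a` and `t`:
over `a` first it is `∏_j (e^{2πi P_t(j)} + e^{-2πi P_t(j)}) = ∏_j 2 cos(2π P_t(j))`,
`P_t(j) = ∑_k t_k binom(j,k)/Λ`; over `t` first it is `∏_k ∑_{τ<Λ} exp(2πi τ X_k/Λ)`, which is `0` if some
`X_k` is not divisible by `Λ` (geometric sum), i.e. if some `X_k ≠ 0`, and this is so for every `a`.
(`Finset.prod_univ_sum`, `Fintype.piFinset`, `Finset.sum_comm`.) -/
def S_FOU1 : Prop := ∀ N m Λ : ℕ, N ^ m < Λ → ¬ Good N m →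
  ∑ t ∈ Fintype.piFinset (fun _ : Fin m => range Λ), ∏ j ∈ range N,
    Real.cos (Real.pi * (2 * (∑ k : Fin m, (t k : ℝ) * ((j.choose k : ℕ) : ℝ)) / Λ)) = 0

/-- JOB SIG.  Proof. `cos (π G(j)) = (-1)^(n j) cos (π (G(j) - n j))` (zpow or `Int.negOnePow`), the last
cosine is positive, and the product of the signs is `(-1)^(∑ n j) = 1`. -/
def S_SIG : Prop := ∀ (N : ℕ) (G : ℝ[X]) (n : ℕ → ℤ),
  (∀ j < N, |G.eval (j : ℝ) - (n j : ℝ)| < 1 / 2) → Even (∑ j ∈ range N, n j) →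
  0 ≤ ∏ j ∈ range N, Real.cos (Real.pi * G.eval (j : ℝ))

/-- JOB BADP.  Proof. For `y = x - round x`, `|y| ≤ 1/2`: `|cos (π x)| = cos (π y) ≤ 1 - 2 y²`
(`Real.cos_quadratic_upper_bound`) `≤ exp (-2 y²)`.  So every bad factor is at most `exp(-2η²)` in
absolute value, the others at most `1`, and there are at least `R+1` bad factors. -/
def S_BADP : Prop := ∀ (N R : ℕ) (η : ℝ) (G : ℝ[X]), 0 < η → R < (bad η N G).card →
  |∏ j ∈ range N, Real.cos (Real.pi * G.eval (j : ℝ))| ≤ Real.exp (-(2 * η ^ 2 * (R + 1)))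

/-- JOB NEAR.  Proof. For `j < N`: `0 ≤ ∑_k t_k binom(j,k)/Λ ≤ ∑_k N^k/(8 m N^(k+1)) = 1/(8N)`, so the
argument of the cosine is `x ∈ [0, π/(4N)]`, `cos x ≥ 1 - x²/2 ≥ 1 - 1/(2N)`
(`Real.one_sub_sq_div_two_le_cos`), and the product is at least `(1-1/(2N))^N ≥ 1/2`
(`one_add_mul_le_pow`). -/
def S_NEAR : Prop := ∀ (N m Λ : ℕ) (t : Fin m → ℕ), 1 ≤ N → 1 ≤ m → 1 ≤ Λ →
  (∀ k : Fin m, (t k : ℝ) ≤ Λ / (8 * m * (N : ℝ) ^ ((k : ℕ) + 1))) →
  1 / 2 ≤ ∏ j ∈ range N,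
    Real.cos (Real.pi * (2 * (∑ k : Fin m, (t k : ℝ) * ((j.choose k : ℕ) : ℝ)) / Λ))

/-- JOB CNT.  Proof. The set is the `piFinset` of `{τ < Λ : τ ≤ x_k}`, `x_k = Λ/(8mN^(k+1)) < Λ`, which has
`⌊x_k⌋ + 1 ≥ x_k` elements (it contains `range (⌊x_k⌋₊ + 1)`); `Fintype.card_piFinset`. -/
def S_CNT : Prop := ∀ (N m Λ : ℕ), 1 ≤ N → 1 ≤ m → 1 ≤ Λ →
  (Λ : ℝ) ^ m * ∏ k : Fin m, (1 / (8 * m * (N : ℝ) ^ ((k : ℕ) + 1)) : ℝ) ≤
    (((Fintype.piFinset (fun _ : Fin m => range Λ)).filter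
      (fun t => ∀ k : Fin m, (t k : ℝ) ≤ Λ / (8 * m * (N : ℝ) ^ ((k : ℕ) + 1)))).card : ℝ)

/-- JOB VOL.  Proof. Take logarithms: the logarithm of the right side is
`- log 2 - m log (8m) - (m(m+1)/2) log N`. -/
def S_VOL : Prop := ∀ (N m : ℕ) (x : ℝ), 1 ≤ N → 1 ≤ m →
  Real.log 2 + m * Real.log (8 * m) + m * (m + 1) / 2 * Real.log N ≤ x →
  Real.exp (-x) ≤ (1 / 2) * ∏ k : Fin m, (1 / (8 * m * (N : ℝ) ^ ((k : ℕ) + 1)) : ℝ)

/-- JOB FOU (assembly of BIN, FOU1, SIG, BADP, NEAR, CNT, VOL).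
Proof. Suppose `¬ Good N m`, `Λ = N^m + 1`.  By FOU1 the sum over `t` of the products is `0`.  For every `t`
let `G` be the polynomial from BIN with `G(j) = 2 ∑_k t_k binom(j,k)/Λ` (`c k = 2 t_k/Λ`).  If `G` has more
than `R` bad places the product is `≥ -V/2` with `V = ∏_k 1/(8mN^(k+1)) > 0` (BADP, VOL with
`x = 2η²(R+1)`); otherwise it is `≥ 0` (hypothesis, SIG).  The near `t` (NEAR) have products `≥ 1/2`, and
their number is `≥ Λ^m V > 0` (CNT).  So the sum is at least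
`(1/2) #near - (V/2) (Λ^m - #near) > (1/2) Λ^m V - (V/2) Λ^m = 0`, a contradiction. -/
def S_FOU : Prop := ∀ (N m R : ℕ) (η : ℝ), 1 ≤ N → 1 ≤ m → 0 < η →
  Real.log 2 + m * Real.log (8 * m) + m * (m + 1) / 2 * Real.log N ≤ 2 * η ^ 2 * (R + 1) →
  (∀ G : ℝ[X], G.degree < m → (bad η N G).card ≤ R → ∃ n : ℕ → ℤ,
    (∀ j < N, |G.eval (j : ℝ) - (n j : ℝ)| < 1 / 2) ∧ Even (∑ j ∈ range N, n j)) →
  Good N m

/-- JOB KK.  Proof. Polynomials grow slower than `2^k`; e.g. `(16k^3+1)^(8C) ≤ (17 k^3)^(8C)`, which is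
`K * k^(24 C)`, and this is `≤ 2^k` for large `k` (`tendsto_pow_const_div_const_pow_of_one_lt`). -/
def S_KK : Prop := ∀ C : ℕ, ∃ k : ℕ, 1 ≤ k ∧ (16 * k ^ 3 + 1) ^ (8 * C) ≤ 2 ^ k

/-- The order `M` for given `C, k, s`. -/
def MM (C k s : ℕ) : ℕ := C * s / k + 1
/-- The degree bound `d`. -/
def dd (C k E s : ℕ) : ℕ := (E + k) * MM C k s
/-- The degree `ℓ` of the ternary polynomial for the extension. -/
def ll (C k E s : ℕ) : ℕ := 16 * dd C k E s ^ 3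
/-- `T = 1/η`. -/
def TT (C k E B s : ℕ) : ℕ := 4 * (ll C k E s + 1) * B ^ MM C k s
/-- The bound `R` for the number of bad places. -/
def RR (C k E B Q s : ℕ) : ℕ := TT C k E B s ^ 2 * (1 + 8 * (C * s) ^ 2 + (C * s) ^ 2 * (Q + s))
/-- The length `Y` of the initial interval. -/
def YY (C k E B Q A s : ℕ) : ℕ :=
  A * MM C k s + Q * ((RR C k E B Q s * ll C k E s + 1) * ll C k E s + 2)

/-- JOB NUM.  The numerical conditions for large `s`.
Proof. `M - 1 = C s / k`, so `k (M-1) ≤ C s`, `B^(8C(M-1)) ≤ 2^(k(M-1)) ≤ 2^(Cs)`, hence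
`B^(8(M-1)) ≤ 2^s` (compare `C`-th powers, `C ≥ 1`).  Everything else is polynomial in `s`: `M ≤ C s + 1`,
`ℓ = 16 ((E+k)M)^3`, `T^8 = (4(ℓ+1)B)^8 B^(8(M-1)) ≤ poly(s) 2^s`.  Both left sides are at most
`poly(s) T^4` (`R+1 ≤ T² poly`, `Y ≤ T² poly`), and `(poly(s) T^4)² = poly(s) T^8 ≤ poly(s) 2^s ≤ (2^s)²` for
large `s`, so `poly(s) T^4 ≤ 2^s`.  Here every `poly(s)` can be bounded by `K (s+1)^P`, and
`K (s+1)^P ≤ 2^s` for large `s`. -/
def S_NUM : Prop := ∀ C k B Q E A : ℕ, 1 ≤ C → 1 ≤ k → 1 ≤ B → B ^ (8 * C) ≤ 2 ^ k → 1 ≤ Q →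
  ∃ s0 : ℕ, ∀ s ≥ s0,
    (RR C k E B Q s + 1) * YY C k E B Q A s ≤ Q * 2 ^ s ∧
    2 * ((RR C k E B Q s * ll C k E s + 1) * ll C k E s) + 1 ≤ 2 ^ s ∧
    E * MM C k s < 2 ^ s

/-- STRUCT and FIN (helper104): the theorem about signs. -/
def S_MAIN : Prop := ∀ C : ℕ, 1 ≤ C → ∃ Q : ℕ, 1 ≤ Q ∧ ∃ s0 : ℕ, ∀ s ≥ s0, Good (Q * 2 ^ s) (C * s)

end Pool.Agent.H104.MZ
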